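import Pool.Agent.MVS.Stmts
import Pool.Agent.Helper5_RF.Common
import Pool.Agent.Helper36_RF.Chr

noncomputable section

open scoped ContDiff Topology RealInnerProductSpace
open Set MeasureTheory

namespace Pool.Agent.MVS.H6

open Pool.Agent.RF Pool.Agent.MVS Pool.Agent.RF.H5

/-- derivative of the geodesics and of their velocities -/
theorem geo_deriv {G : E5 → Bil E5} {κ : Finset (Fin 5)} {F : E5 → E5} (hF : NData G κ F)
    (σ y : E5) (hσ : pP κ σ = 0) (hσ0 : σ ≠ 0) (hy : pN κ y = 0) (hz : ∀ t : ℝ, pN κ (σ + t • y) ≠ 0)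
    (t : ℝ) :
    HasDerivAt (fun s : ℝ => F (σ + s • y)) (fderiv ℝ F (σ + t • y) y) t ∧
    HasDerivAt (fun s : ℝ => fderiv ℝ F (σ + s • y) y)
      (- chris G (F (σ + t • y)) (fderiv ℝ F (σ + t • y) y) (fderiv ℝ F (σ + t • y) y)) t := by
  have hopen : IsOpen {z : E5 | pN κ z ≠ 0} := isOpen_ne_fun (pN κ).continuous continuous_const
  have hc : ContDiffAt ℝ ∞ F (σ + t • y) :=
    (hF.smooth).contDiffAt (hopen.mem_nhds (hz t))
  have hlin : HasDerivAt (fun s : ℝ => σ + s • y) y t := by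
    have := ((hasDerivAt_id t).smul_const y).const_add σ
    simpa using this
  refine ⟨?_, ?_⟩
  · have h1 : HasFDerivAt F (fderiv ℝ F (σ + t • y)) (σ + t • y) :=
      (hc.differentiableAt (by norm_num)).hasFDerivAt
    exact h1.comp_hasDerivAt t hlin
  · have h2 : ContDiffAt ℝ ∞ (fun z => fderiv ℝ F z y) (σ + t • y) := fd_apply_contDiffAt hc y
    have h3 : HasFDerivAt (fun z => fderiv ℝ F z y) (fderiv ℝ (fun z => fderiv ℝ F z y) (σ + t • y))
        (σ + t • y) := (h2.differentiableAt (by norm_num)).hasFDerivAt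
    have h4 := h3.comp_hasDerivAt t hlin
    rw [hF.geo σ hσ hσ0 y hy t] at h4
    exact h4

theorem cob : UnqStatement → NozStatement → RotStatement → CobStatement := by
  intro hUnq hNoz hRot G κ a b F hS hF z₁ z₂ h1 h2 hp1 hp1' hp2 hp2' hFz heq
  obtain ⟨rsum, -, -, -, rPP, rNN, rPN, rNP, -⟩ := hRot
  set l₁ : ℝ := ‖pP κ z₁‖ with hl1
  set l₂ : ℝ := ‖pP κ z₂‖ with hl2
  set σ₁ : E5 := pN κ z₁ with hσ1
  set σ₂ : E5 := pN κ z₂ with hσ2
  set y₁ : E5 := l₁⁻¹ • pP κ z₁ with hy1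
  set y₂ : E5 := l₂⁻¹ • pP κ z₂ with hy2
  have hPσ1 : pP κ σ₁ = 0 := rPN κ z₁
  have hPσ2 : pP κ σ₂ = 0 := rPN κ z₂
  have hNy1 : pN κ y₁ = 0 := by rw [hy1, map_smul, rNP, smul_zero]
  have hNy2 : pN κ y₂ = 0 := by rw [hy2, map_smul, rNP, smul_zero]
  have hPy1 : pP κ y₁ = y₁ := by rw [hy1, map_smul, rPP]
  have hPy2 : pP κ y₂ = y₂ := by rw [hy2, map_smul, rPP]
  have hNσ1 : pN κ σ₁ = σ₁ := rNN κ z₁
  have hNσ2 : pN κ σ₂ = σ₂ := rNN κ z₂
  have hny1 : ‖y₁‖ = 1 := by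
    rw [hy1, norm_smul, norm_inv, Real.norm_of_nonneg hp1.le]
    exact inv_mul_cancel₀ hp1.ne'
  have hz1 : σ₁ + l₁ • y₁ = z₁ := by
    rw [hy1, smul_smul, mul_inv_cancel₀ hp1.ne', one_smul]
    exact rsum κ z₁
  have hz2 : σ₂ + l₂ • y₂ = z₂ := by
    rw [hy2, smul_smul, mul_inv_cancel₀ hp2.ne', one_smul]
    exact rsum κ z₂
  have hN1 : ∀ t : ℝ, pN κ (σ₁ + t • y₁) = σ₁ := by
    intro t; rw [map_add, map_smul, hNy1, smul_zero, add_zero, hNσ1]
  have hN2 : ∀ t : ℝ, pN κ (σ₂ + t • y₂) = σ₂ := by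
    intro t; rw [map_add, map_smul, hNy2, smul_zero, add_zero, hNσ2]
  have hg1 := geo_deriv hF σ₁ y₁ hPσ1 h1 hNy1 (fun t => by rw [hN1 t]; exact h1)
  have hg2 := geo_deriv hF σ₂ y₂ hPσ2 h2 hNy2 (fun t => by rw [hN2 t]; exact h2)
  have hOm1 : ∀ t : ℝ, F (σ₁ + t • y₁) ∈ Om (Fin 5) := by
    intro t h0
    have := hF.norm (σ₁ + t • y₁) (by rw [hN1 t]; exact h1)
    rw [h0, norm_zero, hN1 t] at this
    exact h1 (norm_eq_zero.1 this.symm)
  have hOm2 : ∀ t : ℝ, F (σ₂ + t • y₂) ∈ Om (Fin 5) := by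
    intro t h0
    have := hF.norm (σ₂ + t • y₂) (by rw [hN2 t]; exact h2)
    rw [h0, norm_zero, hN2 t] at this
    exact h2 (norm_eq_zero.1 this.symm)
  have hchr : ChrStatement := chrStatement
  have hcneg : ∀ x ∈ Om (Fin 5), ∀ v : E5, chris G x (-v) (-v) = chris G x v v := by
    intro x hx v
    rw [chr_neg_left hchr hS.cyl.metric hx, chr_neg_right hchr hS.cyl.metric hx, neg_neg]
  have key := hUnq G hS.cyl l₂ hp2.le
    (fun t => F (σ₁ + (l₁ + t) • y₁)) (fun t => F (σ₂ + (l₂ - t) • y₂))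
    (fun t => fderiv ℝ F (σ₁ + (l₁ + t) • y₁) y₁)
    (fun t => - fderiv ℝ F (σ₂ + (l₂ - t) • y₂) y₂)
    (fun t _ => ⟨hOm1 _, hOm2 _⟩)
    (by
      intro t _
      have hin : HasDerivAt (fun s : ℝ => l₁ + s) 1 t := by
        simpa using (hasDerivAt_id t).const_add l₁
      refine ⟨?_, ?_⟩
      · have := (hg1 (l₁ + t)).1.scomp t hin
        simpa [Function.comp_def] using this.hasDerivWithinAt
      · have := (hg1 (l₁ + t)).2.scomp t hin
        simpa [Function.comp_def] using this.hasDerivWithinAt)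
    (by
      intro t _
      have hin : HasDerivAt (fun s : ℝ => l₂ - s) (-1) t := by
        simpa using (hasDerivAt_id t).const_sub l₂
      refine ⟨?_, ?_⟩
      · have := (hg2 (l₂ - t)).1.scomp t hin
        simpa [Function.comp_def] using this.hasDerivWithinAt
      · have h3 := ((hg2 (l₂ - t)).2.scomp t hin).neg
        have e : -((-1 : ℝ) • -chris G (F (σ₂ + (l₂ - t) • y₂)) (fderiv ℝ F (σ₂ + (l₂ - t) • y₂) y₂)
            (fderiv ℝ F (σ₂ + (l₂ - t) • y₂) y₂)) =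
            -chris G (F (σ₂ + (l₂ - t) • y₂)) (-fderiv ℝ F (σ₂ + (l₂ - t) • y₂) y₂)
            (-fderiv ℝ F (σ₂ + (l₂ - t) • y₂) y₂) := by
          rw [hcneg _ (hOm2 _)]
          simp
        rw [e] at h3
        exact h3.hasDerivWithinAt)
    (by
      show F (σ₁ + (l₁ + 0) • y₁) = F (σ₂ + (l₂ - 0) • y₂)
      rw [add_zero, sub_zero, hz1, hz2]
      exact hFz)
    (by
      show fderiv ℝ F (σ₁ + (l₁ + 0) • y₁) y₁ = - fderiv ℝ F (σ₂ + (l₂ - 0) • y₂) y₂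
      rw [add_zero, sub_zero, hz1, hz2, hy1, hy2, map_smul, map_smul]
      exact heq)
    l₂ ⟨hp2.le, le_refl _⟩
  have hfin : F (σ₁ + (l₁ + l₂) • y₁) = σ₂ := by
    have := key.1
    simp only [sub_self, zero_smul, add_zero] at this
    rw [this, hF.base σ₂ hPσ2 h2]
  have hn := hNoz G κ a b F hS hF (σ₁ + (l₁ + l₂) • y₁)
    (by rw [hN1]; exact h1)
  have hP : pP κ (σ₁ + (l₁ + l₂) • y₁) = (l₁ + l₂) • y₁ := by
    rw [map_add, map_smul, hPσ1, zero_add, hPy1]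
  have hnorm : ‖pP κ (σ₁ + (l₁ + l₂) • y₁)‖ = l₁ + l₂ := by
    rw [hP, norm_smul, hny1, mul_one, Real.norm_of_nonneg (by linarith)]
  rw [hnorm] at hn
  exact hn (by linarith) (by linarith) (by rw [hfin]; exact hPσ2)

end Pool.Agent.MVS.H6
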