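import Pool.Agent.MVS.Stmts

noncomputable section

open scoped ContDiff Topology RealInnerProductSpace
open Set MeasureTheory

namespace Pool.Agent.MVS.H6

open Pool.Agent.RF Pool.Agent.MVS

theorem real_ball4 : (volume : Measure (E (Fin 4))).real (Metric.ball 0 1) = Real.pi ^ 2 / 2 := by
  have h := EuclideanSpace.volume_ball (Fin 4) (0 : E (Fin 4)) 1
  have hG : Real.Gamma ((Fintype.card (Fin 4) : ℝ) / 2 + 1) = 2 := by
    have : ((Fintype.card (Fin 4) : ℝ) / 2 + 1) = (2 : ℕ) + 1 := by norm_num
    rw [this, Real.Gamma_nat_eq_factorial]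
    norm_num [Nat.factorial]
  rw [hG] at h
  rw [Measure.real, h]
  have h2 : Real.sqrt Real.pi ^ Fintype.card (Fin 4) = Real.pi ^ 2 := by
    have : Real.sqrt Real.pi ^ 2 = Real.pi := Real.sq_sqrt Real.pi_pos.le
    simp only [Fintype.card_fin]
    calc Real.sqrt Real.pi ^ 4 = (Real.sqrt Real.pi ^ 2) ^ 2 := by ring
      _ = _ := by rw [this]
  rw [h2, ENNReal.ofReal_one, one_pow, one_mul, ENNReal.toReal_ofReal (by positivity)]

theorem real_ball2 : (volume : Measure (E (Fin 2))).real (Metric.ball 0 1) = Real.pi := by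
  have h := EuclideanSpace.volume_ball (Fin 2) (0 : E (Fin 2)) 1
  have hG : Real.Gamma ((Fintype.card (Fin 2) : ℝ) / 2 + 1) = 1 := by
    have : ((Fintype.card (Fin 2) : ℝ) / 2 + 1) = (1 : ℕ) + 1 := by norm_num
    rw [this, Real.Gamma_nat_eq_factorial]
    norm_num [Nat.factorial]
  rw [hG] at h
  rw [Measure.real, h]
  have h2 : Real.sqrt Real.pi ^ Fintype.card (Fin 2) = Real.pi := by
    simp only [Fintype.card_fin]
    exact Real.sq_sqrt Real.pi_pos.le
  rw [h2, ENNReal.ofReal_one, one_pow, one_mul, div_one, ENNReal.toReal_ofReal Real.pi_pos.le]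

/-- polar coordinates for a radial function on the ball `‖y‖ < π/2` -/
theorem polar {n : ℕ} (hn : 0 < n) (f g : ℝ → ℝ) (hg : Continuous g)
    (hfg : ∀ r, 0 < r → r ^ (n - 1) * f r = g r) :
    IntegrableOn (fun y : E (Fin n) => f ‖y‖) {y | ‖y‖ < Real.pi / 2} ∧
    ∫ y in {y : E (Fin n) | ‖y‖ < Real.pi / 2}, f ‖y‖ =
      n * (volume : Measure (E (Fin n))).real (Metric.ball 0 1) *
        ∫ r in (0 : ℝ)..(Real.pi / 2), g r := by
  haveI : Nonempty (Fin n) := ⟨⟨0, hn⟩⟩
  haveI : Nontrivial (E (Fin n)) := by infer_instance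
  have hm : MeasurableSet {y : E (Fin n) | ‖y‖ < Real.pi / 2} :=
    measurableSet_lt measurable_norm measurable_const
  have hfr : Module.finrank ℝ (E (Fin n)) = n := by simp [E]
  have hpi : (0 : ℝ) < Real.pi / 2 := by positivity
  have hind : (fun y : E (Fin n) => Set.indicator {y : E (Fin n) | ‖y‖ < Real.pi / 2} (fun y => f ‖y‖) y)
      = fun y : E (Fin n) => (Set.indicator (Iio (Real.pi / 2)) f) ‖y‖ := by
    funext y
    by_cases h : ‖y‖ < Real.pi / 2
    · simp [Set.indicator, h]
    · simp [Set.indicator, h]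
  have hae : ∀ x ∈ Ioi (0 : ℝ), x ^ (n - 1) • (Set.indicator (Iio (Real.pi / 2)) f) x
      = Set.indicator (Ioo 0 (Real.pi / 2)) g x := by
    intro x hx
    have hx' : (0 : ℝ) < x := hx
    by_cases h : x < Real.pi / 2
    · simp [Set.indicator, h, hx', hfg x hx']
    · simp [Set.indicator, h]
  have hgi : IntegrableOn (Set.indicator (Ioo 0 (Real.pi / 2)) g) (Ioi (0 : ℝ)) := by
    have h1 : IntegrableOn g (Ioo 0 (Real.pi / 2)) :=
      (hg.integrableOn_Icc).mono_set Ioo_subset_Icc_self
    exact ((integrable_indicator_iff measurableSet_Ioo).2 h1).integrableOn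
  constructor
  · rw [← integrable_indicator_iff hm]
    have e1 : Set.indicator {y : E (Fin n) | ‖y‖ < Real.pi / 2} (fun y => f ‖y‖)
        = fun y : E (Fin n) => (Set.indicator (Iio (Real.pi / 2)) f) ‖y‖ := hind
    rw [e1]
    have := (integrable_fun_norm_addHaar (volume : Measure (E (Fin n)))
      (f := Set.indicator (Iio (Real.pi / 2)) f)).2 (by
        rw [hfr]
        exact hgi.congr_fun (fun x hx => (hae x hx).symm) measurableSet_Ioi)
    exact this
  · rw [← integral_indicator hm]
    have e1 : Set.indicator {y : E (Fin n) | ‖y‖ < Real.pi / 2} (fun y => f ‖y‖)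
        = fun y : E (Fin n) => (Set.indicator (Iio (Real.pi / 2)) f) ‖y‖ := hind
    rw [e1]
    have h2 := integral_fun_norm_addHaar (volume : Measure (E (Fin n)))
      (Set.indicator (Iio (Real.pi / 2)) f)
    rw [h2, hfr, setIntegral_congr_fun measurableSet_Ioi hae]
    rw [setIntegral_indicator measurableSet_Ioo]
    have h3 : Ioi (0 : ℝ) ∩ Ioo 0 (Real.pi / 2) = Ioo 0 (Real.pi / 2) := by
      ext x; simp
    rw [h3, intervalIntegral.integral_of_le hpi.le, integral_Ioc_eq_integral_Ioo]
    simp only [nsmul_eq_mul, smul_eq_mul]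
    ring

theorem pol : PolStatement := by
  refine ⟨?_, ?_⟩
  · have h := polar (n := 4) (by norm_num) (fun r => (Real.sin r / r) ^ 3) (fun r => Real.sin r ^ 3)
      (Real.continuous_sin.pow 3) (by
        intro r hr
        have : r ≠ 0 := hr.ne'
        simp only [Nat.add_one_sub_one]
        field_simp)
    refine ⟨h.1, ?_⟩
    rw [h.2, real_ball4, integral_sin_pow_three]
    simp only [Real.cos_zero, Real.cos_pi_div_two]
    push_cast
    ring
  · have h := polar (n := 2) (by norm_num) (fun r => Real.sin r / r * Real.cos r ^ 2)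
      (fun r => Real.sin r * Real.cos r ^ 2)
      (Real.continuous_sin.mul (Real.continuous_cos.pow 2)) (by
        intro r hr
        have : r ≠ 0 := hr.ne'
        simp only [Nat.add_one_sub_one, pow_one]
        field_simp)
    refine ⟨h.1, ?_⟩
    rw [h.2, real_ball2, integral_sin_mul_cos_sq]
    simp only [Real.cos_zero, Real.cos_pi_div_two]
    push_cast
    ring

end Pool.Agent.MVS.H6
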